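import Pool.Agent.W692.TB.Stage
import Pool.Agent.W692.TB.ArC
import Pool.Agent.W688.TB.Main
import Pool.Agent.W688.TB.Riesz
import Pool.Agent.W688.TB.Wch
import Pool.Agent.W688.TB.Glue
import Pool.Agent.W688.TB.Asm
import Pool.Agent.W688.TB.Haar
import Pool.Agent.W12.TBGen

/-!
# MP_89175a: basic sequences of translates whose closed span contains `L_p` (`1 < p < 2`)
-/

set_option autoImplicit false

open Filter MeasureTheory Set
open scoped ENNReal Topology

namespace Pool.Agent.Results.MP_89175a_an.TranslateBasis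

open Pool.Agent.W692.TB

/-- For every `1 < p < 2` there are `f ∈ L_p(ℝ)` and translates `x i = f(· - lam i)` which form a
basic sequence (every `z` in the closed linear span has exactly one norm convergent expansion
`∑ a i • x i`), such that `L_p[0,1]` embeds isomorphically into the closed linear span of `(x i)`. -/
theorem result (p : ℝ≥0∞) [Fact (1 ≤ p)] (hp1 : 1 < p) (hp2 : p < 2) :
    ∃ (f : Lp ℝ p (volume : Measure ℝ)) (lam : ℕ → ℝ) (x : ℕ → Lp ℝ p (volume : Measure ℝ)),
      (∀ i, ∀ᵐ t ∂(volume : Measure ℝ), x i t = f (t - lam i)) ∧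
      (∀ z ∈ (Submodule.span ℝ (Set.range x)).topologicalClosure,
        ∃! a : ℕ → ℝ, Tendsto (fun n => ∑ i ∈ Finset.range n, a i • x i) atTop (𝓝 z)) ∧
      ∃ (T : Lp ℝ p ((volume : Measure ℝ).restrict (Icc (0 : ℝ) 1)) →L[ℝ]
            (Submodule.span ℝ (Set.range x)).topologicalClosure) (c : ℝ),
        0 < c ∧ ∀ g, c * ‖g‖ ≤ ‖T g‖ := by
  have hstage : S_stage := stage Pool.Agent.W688.TBM.t_main Pool.Agent.W688.TBR.t_riesz
    Pool.Agent.W688.TBW.t_w hcthm trans
  have harena : S_arena := arC arA arB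
  obtain ⟨f, lam, hb, T, c, hc, hT, hr⟩ := Pool.Agent.W688.TBA.t_asm Pool.Agent.W688.TBH.t_haar
    Pool.Agent.W12.TBGen.ext Pool.Agent.W12.TBGen.basic Pool.Agent.W12.TBGen.pert harena hcthm
    Pool.Agent.W688.TBG.t_glue hstage p hp1 hp2
  refine ⟨f, lam, fun i => H316F.Tr ℝ p (lam i) f, fun i => H316F.Tr_coe (lam i) f, hb,
    T.codRestrict _ hr, c, hc, fun g => hT g⟩

end Pool.Agent.Results.MP_89175a_an.TranslateBasis
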